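import Pool.Agent.W525.CB.Stm

/-!
# The functions that are regular on the generic fibre (project CB, part FIB)
-/

set_option autoImplicit false
set_option linter.all false

namespace Pool.Agent.W372.CB

open Pool.Agent.W525.CB

/-! ### Algebraic extensions -/

lemma alg_top {k E : Type} [Field k] [Field E] [Algebra k E] (S T : Set E)
    (hT : IntermediateField.adjoin k T = ⊤)
    (h : ∀ t ∈ T, t ∈ algebraicClosure (IntermediateField.adjoin k S) E) :
    Algebra.IsAlgebraic (Algebra.adjoin k S) E := by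
  rw [← IntermediateField.isAlgebraic_adjoin_iff_top]
  set K := IntermediateField.adjoin k S with hK
  have h1 : (algebraicClosure K E).restrictScalars k = ⊤ := by
    rw [eq_top_iff, ← hT, IntermediateField.adjoin_le_iff]
    intro t ht
    exact h t ht
  constructor
  intro e
  have h2 : e ∈ (algebraicClosure K E).restrictScalars k := by rw [h1]; trivial
  exact mem_algebraicClosure_iff.1 h2

lemma ai_of_ringHom {F L E ι : Type} [Field F] [Field L] [Field E] [Algebra F E] [Algebra L E]
    (φ : F →+* L) (hφ : ∀ a, algebraMap L E (φ a) = algebraMap F E a) {y : ι → E}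
    (h : AlgebraicIndependent L y) : AlgebraicIndependent F y := by
  rw [algebraicIndependent_iff] at h ⊢
  intro p hp
  have h1 : MvPolynomial.aeval y (MvPolynomial.map φ p) = 0 := by
    rw [← hp, MvPolynomial.aeval_def, MvPolynomial.eval₂_map, MvPolynomial.aeval_def]
    congr 1
    ext a
    exact hφ a
  have h2 := h _ h1
  exact (MvPolynomial.map_injective φ φ.injective) (by rw [h2, map_zero])

/-! ### Derivations -/

section der

variable {k E : Type} [Field k] [Field E] [Algebra k E]

/-- the field of constants -/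
def cst (δ : Derivation k E E) : IntermediateField k E where
  carrier := {e | δ e = 0}
  mul_mem' := by
    intro a b ha hb
    simp only [Set.mem_setOf_eq] at *
    rw [δ.leibniz, ha, hb, smul_zero, smul_zero, add_zero]
  add_mem' := by
    intro a b ha hb
    simp only [Set.mem_setOf_eq] at *
    rw [map_add, ha, hb, add_zero]
  algebraMap_mem' := by
    intro r
    simp
  inv_mem' := by
    intro a ha
    simp only [Set.mem_setOf_eq] at *
    rw [Derivation.leibniz_inv, ha, smul_zero]

lemma mem_cst {δ : Derivation k E E} {e : E} : e ∈ cst δ ↔ δ e = 0 := Iff.rfl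

lemma indep (δ : Derivation k E E) {y : E} (hy : δ y = 1) (p : ℕ) [CharP E p] :
    ∀ d ≤ p, ∀ g : ℕ → E, (∀ r, δ (g r) = 0) →
      ∑ r ∈ Finset.range d, g r * y ^ r = 0 → ∀ r < d, g r = 0 := by
  intro d
  induction d with
  | zero => intro _ g _ _ r hr; omega
  | succ d ih =>
    intro hd g hg h
    have h1 : ∑ r ∈ Finset.range d, (g (r + 1) * ((r + 1 : ℕ) : E)) * y ^ r = 0 := by
      have h2 := congrArg δ h
      rw [map_zero, map_sum, Finset.sum_range_succ'] at h2
      simp only [pow_zero, mul_one, hg, add_zero] at h2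
      rw [← h2]
      refine Finset.sum_congr rfl fun r _ => ?_
      rw [δ.leibniz, hg, smul_zero, add_zero, δ.leibniz_pow, hy]
      simp only [smul_eq_mul, mul_one, nsmul_eq_mul, Nat.add_sub_cancel]
      ring
    have h3 := ih (by omega) (fun r => g (r + 1) * ((r + 1 : ℕ) : E)) (fun r => by
      rw [δ.leibniz, hg, smul_zero, add_zero]
      simp) h1
    have h4 : ∀ r < d, g (r + 1) = 0 := by
      intro r hr
      have h5 := h3 r hr
      rcases mul_eq_zero.1 h5 with h6 | h6
      · exact h6
      · exfalso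
        rw [CharP.cast_eq_zero_iff E p] at h6
        have := Nat.le_of_dvd (by omega) h6
        omega
    have h5 : g 0 = 0 := by
      rw [Finset.sum_range_succ'] at h
      rw [Finset.sum_eq_zero (fun r hr => by rw [h4 r (Finset.mem_range.1 hr), zero_mul]),
        zero_add, pow_zero, mul_one] at h
      exact h
    intro r hr
    rcases r with _ | r
    · exact h5
    · exact h4 r (by omega)

/-- extension of derivations of a polynomial ring to separable extensions -/
lemma exists_der {ι : Type} (z : ι → E) (hz : AlgebraicIndependent k z) (x₀ : E)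
    (hgen : IntermediateField.adjoin k (Set.range z ∪ {x₀}) = ⊤) (q : ℕ) (hq : (q : E) ≠ 0)
    (P : MvPolynomial ι k) (hx₀ : x₀ ≠ 0) (hxq : x₀ ^ q = MvPolynomial.aeval z P) (a : ι → E) :
    ∃ δ : Derivation k E E, ∀ i, δ (z i) = a i := by
  letI : Algebra (MvPolynomial ι k) E := (MvPolynomial.aeval z).toAlgebra
  haveI : IsScalarTower k (MvPolynomial ι k) E := IsScalarTower.of_algebraMap_eq (fun c => by
    show algebraMap k E c = MvPolynomial.aeval z (MvPolynomial.C c)
    rw [MvPolynomial.aeval_C])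
  have hinj : Function.Injective (algebraMap (MvPolynomial ι k) E) := hz
  haveI : FaithfulSMul (MvPolynomial ι k) E := (faithfulSMul_iff_algebraMap_injective _ _).2 hinj
  letI : Algebra (FractionRing (MvPolynomial ι k)) E := FractionRing.liftAlgebra _ E
  haveI := FractionRing.isScalarTower_liftAlgebra (MvPolynomial ι k) E
  haveI : IsScalarTower k (FractionRing (MvPolynomial ι k)) E :=
    IsScalarTower.of_algebraMap_eq (fun c => by
      rw [IsScalarTower.algebraMap_apply k (MvPolynomial ι k) E,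
        IsScalarTower.algebraMap_apply (MvPolynomial ι k) (FractionRing (MvPolynomial ι k)) E,
        ← IsScalarTower.algebraMap_apply k (MvPolynomial ι k) (FractionRing (MvPolynomial ι k))])
  set B := FractionRing (MvPolynomial ι k) with hB
  have hsep : IsSeparable B x₀ := by
    have hc : algebraMap B E (algebraMap (MvPolynomial ι k) B P) = x₀ ^ q := by
      rw [← IsScalarTower.algebraMap_apply, hxq]
      rfl
    have hq' : (q : B) ≠ 0 := by
      intro h
      apply hq
      have h9 := congrArg (algebraMap B E) h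
      rw [map_natCast, map_zero] at h9
      exact h9
    have hq0 : q ≠ 0 := by
      intro h
      apply hq
      rw [h, Nat.cast_zero]
    have hc0 : algebraMap (MvPolynomial ι k) B P ≠ 0 := by
      intro h
      rw [h, map_zero] at hc
      exact pow_ne_zero q hx₀ hc.symm
    have hs := Polynomial.separable_X_pow_sub_C (algebraMap (MvPolynomial ι k) B P) hq' hc0
    refine Polynomial.Separable.of_dvd hs ?_
    apply minpoly.dvd
    simp [hc]
  have htop : IntermediateField.adjoin B {x₀} = ⊤ := by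
    have h1 : (IntermediateField.adjoin B {x₀}).restrictScalars k = ⊤ := by
      rw [eq_top_iff, ← hgen, IntermediateField.adjoin_le_iff]
      rintro t (⟨i, rfl⟩ | ht)
      · have : z i = algebraMap B E (algebraMap (MvPolynomial ι k) B (MvPolynomial.X i)) := by
          rw [← IsScalarTower.algebraMap_apply]
          show z i = MvPolynomial.aeval z (MvPolynomial.X i)
          rw [MvPolynomial.aeval_X]
        rw [this]
        exact IntermediateField.algebraMap_mem (IntermediateField.adjoin B {x₀}) _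
      · exact IntermediateField.subset_adjoin B {x₀} ht
    apply IntermediateField.restrictScalars_injective k
    rw [h1]
    rfl
  haveI : Algebra.IsSeparable B E := by
    have h1 : Algebra.IsSeparable B (IntermediateField.adjoin B {x₀}) :=
      (IntermediateField.isSeparable_adjoin_simple_iff_isSeparable (F := B) (E := E)).2 hsep
    rw [htop] at h1
    exact Algebra.IsSeparable.of_algHom B (⊤ : IntermediateField B E)
      (IntermediateField.topEquiv (F := B) (E := E)).symm.toAlgHom
  haveI : Algebra.FormallyEtale B E := Algebra.FormallyEtale.of_isSeparable B E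
  haveI : Algebra.FormallyEtale (MvPolynomial ι k) B :=
    Algebra.FormallyEtale.of_isLocalization (nonZeroDivisors (MvPolynomial ι k))
  haveI : Algebra.FormallyEtale (MvPolynomial ι k) E :=
    Algebra.FormallyEtale.comp (MvPolynomial ι k) B E
  have hb := KaehlerDifferential.isBaseChange_of_formallyEtale k (MvPolynomial ι k) E
  let d0 : Derivation k (MvPolynomial ι k) E := MvPolynomial.mkDerivation k a
  let l := hb.lift d0.liftKaehlerDifferential
  refine ⟨l.compDer (KaehlerDifferential.D k E), fun i => ?_⟩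
  have e1 : z i = algebraMap (MvPolynomial ι k) E (MvPolynomial.X i) := by
    show z i = MvPolynomial.aeval z (MvPolynomial.X i)
    rw [MvPolynomial.aeval_X]
  show l (KaehlerDifferential.D k E (z i)) = a i
  rw [e1, ← KaehlerDifferential.map_D k k (MvPolynomial ι k) E]
  show hb.lift d0.liftKaehlerDifferential _ = a i
  rw [hb.lift_eq, Derivation.liftKaehlerDifferential_comp_D]
  exact MvPolynomial.mkDerivation_X k a i

end der

/-! ### Representations -/

section rep

variable {F E : Type} [Field F] [Field E] [Algebra F E]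

/-- `e` is a polynomial of degree `< p` in `Y` with coefficients in `R` -/
def Rp (R : Subalgebra F E) (Y : E) (p : ℕ) (e : E) : Prop :=
  ∃ g : ℕ → E, (∀ r, g r ∈ R) ∧ e = ∑ r ∈ Finset.range p, g r * Y ^ r

lemma Rp_add {R : Subalgebra F E} {Y : E} {p : ℕ} {a b : E} (ha : Rp R Y p a) (hb : Rp R Y p b) :
    Rp R Y p (a + b) := by
  obtain ⟨g, hg, rfl⟩ := ha
  obtain ⟨g', hg', rfl⟩ := hb
  refine ⟨fun r => g r + g' r, fun r => R.add_mem (hg r) (hg' r), ?_⟩
  rw [← Finset.sum_add_distrib]
  exact Finset.sum_congr rfl fun r _ => by ring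

lemma Rp_smul {R : Subalgebra F E} {Y : E} {p : ℕ} {a b : E} (ha : a ∈ R) (hb : Rp R Y p b) :
    Rp R Y p (a * b) := by
  obtain ⟨g', hg', rfl⟩ := hb
  refine ⟨fun r => a * g' r, fun r => R.mul_mem ha (hg' r), ?_⟩
  rw [Finset.mul_sum]
  exact Finset.sum_congr rfl fun r _ => by ring

lemma Rp_zero {R : Subalgebra F E} {Y : E} {p : ℕ} : Rp R Y p 0 :=
  ⟨fun _ => 0, fun _ => R.zero_mem, by simp⟩

lemma Rp_one {R : Subalgebra F E} {Y : E} {p : ℕ} (hp : 0 < p) : Rp R Y p 1 := by
  refine ⟨fun r => if r = 0 then 1 else 0, fun r => by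
    dsimp only
    split_ifs
    exacts [R.one_mem, R.zero_mem], ?_⟩
  dsimp only
  rw [Finset.sum_eq_single 0]
  · simp
  · intro b _ hb; rw [if_neg hb, zero_mul]
  · intro h; exact absurd (Finset.mem_range.2 hp) h

lemma Rp_Y {R : Subalgebra F E} {Y : E} {p : ℕ} (hp : 0 < p) (hY : Y ^ p ∈ R) {b : E}
    (hb : Rp R Y p b) : Rp R Y p (Y * b) := by
  obtain ⟨g, hg, rfl⟩ := hb
  obtain ⟨m, rfl⟩ : ∃ m, p = m + 1 := ⟨p - 1, by omega⟩
  refine ⟨fun r => if r = 0 then g m * Y ^ (m + 1) else g (r - 1), fun r => ?_, ?_⟩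
  · dsimp only
    split_ifs
    · exact R.mul_mem (hg m) hY
    · exact hg _
  · have e2 : ∑ r ∈ Finset.range (m + 1), (if r = 0 then g m * Y ^ (m + 1) else g (r - 1)) * Y ^ r =
        ∑ k ∈ Finset.range m, g k * Y ^ (k + 1) + g m * Y ^ (m + 1) := by
      rw [Finset.sum_range_succ']
      simp
    dsimp only
    rw [e2, Finset.sum_range_succ, mul_add, Finset.mul_sum]
    congr 1
    · exact Finset.sum_congr rfl fun r _ => by ring
    · ring

lemma Rp_all {R : Subalgebra F E} {Y : E} {p : ℕ} (hp : 0 < p) (hY : Y ^ p ∈ R) {e : E}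
    (he : e ∈ Algebra.adjoin F ((R : Set E) ∪ {Y})) : Rp R Y p e := by
  suffices h : ∀ b, Rp R Y p b → Rp R Y p (e * b) by
    have := h 1 (Rp_one hp)
    rwa [mul_one] at this
  induction he using Algebra.adjoin_induction with
  | mem x hx =>
    intro b hb
    rcases hx with hx | hx
    · exact Rp_smul hx hb
    · rw [Set.mem_singleton_iff] at hx
      rw [hx]
      exact Rp_Y hp hY hb
  | algebraMap r =>
    intro b hb
    exact Rp_smul (R.algebraMap_mem r) hb
  | add x y _ _ hx hy =>
    intro b hb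
    rw [add_mul]
    exact Rp_add (hx b hb) (hy b hb)
  | mul x y _ _ hx hy =>
    intro b hb
    rw [mul_assoc]
    exact hx _ (hy b hb)

/-- elements of `F[1/y_0, y_i/y_0]` -/
lemma frac {m : ℕ} (u : Fin (m + 1) → E) (hu : u 0 ≠ 0) {h : E}
    (hh : h ∈ Algebra.adjoin F (insert (u 0)⁻¹ (Set.range fun i => u i / u 0))) :
    ∃ (N : ℕ) (H : MvPolynomial (Fin (m + 1)) F), H.totalDegree ≤ N ∧
      h * u 0 ^ N = MvPolynomial.aeval u H := by
  induction hh using Algebra.adjoin_induction with
  | mem x hx =>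
    rcases hx with hx | ⟨i, rfl⟩
    · refine ⟨1, 1, by simp, ?_⟩
      rw [hx, map_one, pow_one, inv_mul_cancel₀ hu]
    · refine ⟨1, MvPolynomial.X i, (MvPolynomial.totalDegree_X i).le, ?_⟩
      rw [MvPolynomial.aeval_X, pow_one]
      show u i / u 0 * u 0 = u i
      rw [div_mul_cancel₀ _ hu]
  | algebraMap r =>
    refine ⟨0, MvPolynomial.C r, by simp, ?_⟩
    rw [MvPolynomial.aeval_C, pow_zero, mul_one]
  | add x y _ _ hx hy =>
    obtain ⟨N, H, h1, h2⟩ := hx
    obtain ⟨N', H', h1', h2'⟩ := hy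
    refine ⟨N + N', H * MvPolynomial.X 0 ^ N' + H' * MvPolynomial.X 0 ^ N, ?_, ?_⟩
    · refine (MvPolynomial.totalDegree_add _ _).trans (max_le ?_ ?_)
      · refine (MvPolynomial.totalDegree_mul _ _).trans ?_
        rw [MvPolynomial.totalDegree_X_pow]
        omega
      · refine (MvPolynomial.totalDegree_mul _ _).trans ?_
        rw [MvPolynomial.totalDegree_X_pow]
        omega
    · rw [map_add, map_mul, map_mul, map_pow, map_pow, MvPolynomial.aeval_X, ← h2, ← h2']
      ring
  | mul x y _ _ hx hy =>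
    obtain ⟨N, H, h1, h2⟩ := hx
    obtain ⟨N', H', h1', h2'⟩ := hy
    refine ⟨N + N', H * H', (MvPolynomial.totalDegree_mul _ _).trans (add_le_add h1 h1'), ?_⟩
    rw [map_mul, ← h2, ← h2']
    ring

/-- the coefficients -/
lemma coef {m : ℕ} (u : Fin (m + 1) → E) (hu : AlgebraicIndependent F u) {g h : E} {r : ℕ}
    (hg : g ∈ Algebra.adjoin F (Set.range u))
    (hh : h ∈ Algebra.adjoin F (insert (u 0)⁻¹ (Set.range fun i => u i / u 0)))
    (e : g * u 0 ^ r = h) : (r = 0 ∨ g = 0) ∧ ∃ c : F, g = algebraMap F E c := by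
  have hu0 : u 0 ≠ 0 := by
    intro h0
    have := hu.ne_zero 0
    exact this h0
  obtain ⟨N, H, h1, h2⟩ := frac u hu0 hh
  rw [Algebra.adjoin_range_eq_range_aeval] at hg
  obtain ⟨G, hG⟩ := hg
  have hG' : MvPolynomial.aeval u G = g := hG
  by_cases hG0 : G = 0
  · have : g = 0 := by rw [← hG', hG0, map_zero]
    exact ⟨Or.inr this, 0, by rw [this, map_zero]⟩
  · have h3 : G * MvPolynomial.X 0 ^ (r + N) = H := by
      apply hu
      show MvPolynomial.aeval u _ = MvPolynomial.aeval u _
      rw [map_mul, map_pow, MvPolynomial.aeval_X, hG', ← h2, ← e]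
      ring
    have h4 : (G * MvPolynomial.X 0 ^ (r + N)).totalDegree = G.totalDegree + (r + N) := by
      rw [MvPolynomial.totalDegree_mul_of_isDomain hG0 (pow_ne_zero _ (MvPolynomial.X_ne_zero 0)),
        MvPolynomial.totalDegree_X_pow]
    rw [h3] at h4
    have h5 : r = 0 := by omega
    have h6 : G.totalDegree = 0 := by omega
    refine ⟨Or.inl h5, ?_⟩
    rw [MvPolynomial.totalDegree_eq_zero_iff_eq_C] at h6
    exact ⟨MvPolynomial.coeff 0 G, by rw [← hG', h6, MvPolynomial.aeval_C, ← h6]⟩

end rep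

/-! ### The coordinates -/

section main

variable {n : ℕ} {k E : Type} [Field k] [Field E] [Algebra k E] {x y : Fin (n + 3) → E}

/-- the coordinates `y_2, ..., y_{n+1}` -/
def yy (y : Fin (n + 3) → E) (i : Fin n) : E := y i.castSucc.succ.succ

/-- the last coordinate -/
def yl (y : Fin (n + 3) → E) : E := y (Fin.last n).succ.succ

lemma fer (h : Dat x y) :
    x 0 ^ (2 * n + 5) = -(x 1 ^ (2 * n + 5) + ∑ i : Fin (n + 1), x i.succ.succ ^ (2 * n + 5)) := by
  have h1 := h.fermat
  rw [Fin.sum_univ_succ, Fin.sum_univ_succ] at h1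
  have e1 : (Fin.succ 0 : Fin (n + 3)) = 1 := rfl
  rw [e1] at h1
  linear_combination h1

lemma x1 (h : EDat n k E x y) :
    x 1 = -∑ i : Fin (n + 1), x i.succ.succ * y i.succ.succ ^ (n + 2) := by
  have h1 := h.dat.tang
  rw [Fin.sum_univ_succ, Fin.sum_univ_succ] at h1
  have e1 : (Fin.succ 0 : Fin (n + 3)) = 1 := rfl
  rw [e1, h.y0, h.y1, zero_pow (by omega), one_pow] at h1
  linear_combination h1

lemma x1' (h : EDat n k E x y) :
    x (Fin.last n).succ.succ * yl y ^ (n + 2) =
      -(x 1 + ∑ i : Fin n, x i.castSucc.succ.succ * yy y i ^ (n + 2)) := by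
  have h1 := x1 h
  rw [Fin.sum_univ_castSucc] at h1
  unfold yl yy
  linear_combination h1

lemma cases3 (i : Fin (n + 3)) : i = 0 ∨ i = 1 ∨ ∃ j : Fin (n + 1), i = j.succ.succ := by
  induction i using Fin.cases with
  | zero => exact Or.inl rfl
  | succ i =>
    induction i using Fin.cases with
    | zero => exact Or.inr (Or.inl rfl)
    | succ i => exact Or.inr (Or.inr ⟨i, rfl⟩)

lemma cases4 (i : Fin (n + 1)) : i = Fin.last n ∨ ∃ j : Fin n, i = j.castSucc := by
  induction i using Fin.lastCases with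
  | last => exact Or.inl rfl
  | cast i => exact Or.inr ⟨i, rfl⟩

lemma q_ne [CharP k (n + 2)] (K : Type) [Field K] [Algebra k K] : ((2 * n + 5 : ℕ) : K) ≠ 0 := by
  have h : ((n + 2 : ℕ) : K) = 0 := by
    have h1 : ((n + 2 : ℕ) : k) = 0 := CharP.cast_eq_zero k (n + 2)
    have := congrArg (algebraMap k K) h1
    rwa [map_natCast, map_zero] at this
  have e : ((2 * n + 5 : ℕ) : K) = 2 * ((n + 2 : ℕ) : K) + 1 := by push_cast; ring
  rw [e, h]
  simp

lemma p_eq [CharP k (n + 2)] (K : Type) [Field K] [Algebra k K] : ((n + 2 : ℕ) : K) = 0 := by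
  have h1 : ((n + 2 : ℕ) : k) = 0 := CharP.cast_eq_zero k (n + 2)
  have := congrArg (algebraMap k K) h1
  rwa [map_natCast, map_zero] at this

lemma pow_p [CharP k (n + 2)] (δ : Derivation k E E) (a : E) : δ (a ^ (n + 2)) = 0 := by
  rw [δ.leibniz_pow, ← Nat.cast_smul_eq_nsmul E, p_eq (k := k) (n := n) E, zero_smul]

/-- the derivation with respect to the last coordinate -/
lemma der [CharP k (n + 2)] (h : EDat n k E x y) : ∃ δ : Derivation k E E,
    (∀ i, δ (x i) = 0) ∧ (∀ i, δ (yy y i) = 0) ∧ δ (yl y) = 1 := by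
  have hf := fer h.dat
  have h1 := x1 h
  have hgen : IntermediateField.adjoin k (Set.range (Sum.elim (fun i : Fin (n + 1) => x i.succ.succ)
    (fun i : Fin (n + 1) => y i.succ.succ)) ∪ {x 0}) = ⊤ := by
    rw [eq_top_iff, ← h.gen, IntermediateField.adjoin_le_iff]
    have hx : ∀ j : Fin (n + 1), x j.succ.succ ∈ IntermediateField.adjoin k
        (Set.range (Sum.elim (fun i : Fin (n + 1) => x i.succ.succ)
          (fun i : Fin (n + 1) => y i.succ.succ)) ∪ {x 0}) := fun j =>
      IntermediateField.subset_adjoin _ _ (Or.inl ⟨Sum.inl j, rfl⟩)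
    have hy : ∀ j : Fin (n + 1), y j.succ.succ ∈ IntermediateField.adjoin k
        (Set.range (Sum.elim (fun i : Fin (n + 1) => x i.succ.succ)
          (fun i : Fin (n + 1) => y i.succ.succ)) ∪ {x 0}) := fun j =>
      IntermediateField.subset_adjoin _ _ (Or.inl ⟨Sum.inr j, rfl⟩)
    rintro t (⟨i, rfl⟩ | ⟨i, rfl⟩)
    · rcases cases3 i with rfl | rfl | ⟨j, rfl⟩
      · exact IntermediateField.subset_adjoin _ _ (Or.inr rfl)
      · rw [h1]
        exact neg_mem (sum_mem fun j _ => mul_mem (hx j) (pow_mem (hy j) _))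
      · exact hx j
    · rcases cases3 i with rfl | rfl | ⟨j, rfl⟩
      · rw [h.y0]; exact zero_mem _
      · rw [h.y1]; exact one_mem _
      · exact hy j
  obtain ⟨δ, hδ⟩ := exists_der (Sum.elim (fun i : Fin (n + 1) => x i.succ.succ)
    (fun i : Fin (n + 1) => y i.succ.succ)) h.ind (x 0) hgen (2 * n + 5) (q_ne (k := k) E)
    (-((-∑ i : Fin (n + 1), MvPolynomial.X (Sum.inl i) * MvPolynomial.X (Sum.inr i) ^ (n + 2)) ^
      (2 * n + 5) + ∑ i : Fin (n + 1), MvPolynomial.X (Sum.inl i) ^ (2 * n + 5)))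
    (h.dat.nx 0) (by
      rw [hf]
      simp only [map_neg, map_add, map_pow, map_sum, map_mul, MvPolynomial.aeval_X, Sum.elim_inl,
        Sum.elim_inr, ← h1])
    (Sum.elim (fun _ => 0) (fun i => if i = Fin.last n then 1 else 0))
  have hx : ∀ j : Fin (n + 1), δ (x j.succ.succ) = 0 := fun j => hδ (Sum.inl j)
  have hx1 : δ (x 1) = 0 := by
    rw [h1, map_neg, map_sum, Finset.sum_eq_zero, neg_zero]
    intro j _
    rw [δ.leibniz, pow_p, hx, smul_zero, smul_zero, add_zero]
  have hx0 : δ (x 0) = 0 := by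
    have h2 := congrArg δ hf
    rw [map_neg, map_add, map_sum, Finset.sum_eq_zero (fun j _ => by
      rw [δ.leibniz_pow, hx, smul_zero, smul_zero]), δ.leibniz_pow (x 1), hx1, smul_zero, smul_zero,
      add_zero, neg_zero, δ.leibniz_pow, ← Nat.cast_smul_eq_nsmul E, smul_eq_mul, smul_eq_mul] at h2
    rcases mul_eq_zero.1 h2 with h3 | h3
    · exact absurd h3 (q_ne (k := k) E)
    · rcases mul_eq_zero.1 h3 with h4 | h4
      · exact absurd h4 (pow_ne_zero _ (h.dat.nx 0))
      · exact h4
  refine ⟨δ, fun i => ?_, fun i => ?_, ?_⟩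
  · rcases cases3 i with rfl | rfl | ⟨j, rfl⟩
    exacts [hx0, hx1, hx j]
  · have := hδ (Sum.inr i.castSucc)
    simp only [Sum.elim_inr] at this
    rw [if_neg (Fin.castSucc_lt_last i).ne] at this
    exact this
  · have := hδ (Sum.inr (Fin.last n))
    simp only [Sum.elim_inr, if_true] at this
    exact this

lemma alg_root {K : Type} [Field K] [Algebra K E] {a : E} (m : ℕ) (hm : m ≠ 0)
    (h : a ^ m ∈ algebraicClosure K E) : a ∈ algebraicClosure K E := by
  rw [mem_algebraicClosure_iff] at h ⊢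
  exact IsAlgebraic.of_pow (Nat.pos_of_ne_zero hm) h

/-- algebraic independence of `y_2, ..., y_{n+1}` over the function field of `Z` -/
lemma indy (h : EDat n k E x y) : AlgebraicIndependent (FZ k x) (yy y) := by
  have hf := fer h.dat
  have h1 := x1' h
  have hx0 := h.dat.nx 0
  set v : Fin (n + 1) ⊕ Fin (n + 1) → E :=
    Sum.elim (Fin.cons (x 0) (yy y)) (fun i : Fin (n + 1) => x i.succ.succ / x 0) with hv
  have halg : Algebra.IsAlgebraic (Algebra.adjoin k (Set.range v)) E := by
    apply alg_top _ _ h.gen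
    set L := algebraicClosure (IntermediateField.adjoin k (Set.range v)) E with hL
    have hv' : ∀ j, v j ∈ L := fun j => by
      have : v j = algebraMap (IntermediateField.adjoin k (Set.range v)) E
          ⟨v j, IntermediateField.subset_adjoin _ _ ⟨j, rfl⟩⟩ := rfl
      rw [this]
      exact IntermediateField.algebraMap_mem L _
    have hx0' : x 0 ∈ L := hv' (Sum.inl 0)
    have hyy : ∀ j, yy y j ∈ L := fun j => hv' (Sum.inl j.succ)
    have hxs : ∀ j : Fin (n + 1), x j.succ.succ ∈ L := fun j => by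
      have h2 := mul_mem (hv' (Sum.inr j)) hx0'
      have h3 : v (Sum.inr j) * x 0 = x j.succ.succ := by
        show x j.succ.succ / x 0 * x 0 = _
        rw [div_mul_cancel₀ _ hx0]
      rwa [h3] at h2
    have hx1 : x 1 ∈ L := by
      apply alg_root (2 * n + 5) (by omega)
      have h2 : x 1 ^ (2 * n + 5) =
          -(x 0 ^ (2 * n + 5) + ∑ i : Fin (n + 1), x i.succ.succ ^ (2 * n + 5)) := by
        linear_combination hf
      rw [h2]
      exact neg_mem (add_mem (pow_mem hx0' _) (sum_mem fun j _ => pow_mem (hxs j) _))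
    have hyl : yl y ∈ L := by
      apply alg_root (n + 2) (by omega)
      have h2 : yl y ^ (n + 2) =
          -(x 1 + ∑ i : Fin n, x i.castSucc.succ.succ * yy y i ^ (n + 2)) /
            x (Fin.last n).succ.succ := by
        rw [eq_div_iff (h.dat.nx _), mul_comm, h1]
      rw [h2]
      exact div_mem (neg_mem (add_mem hx1 (sum_mem fun j _ => mul_mem (hxs _)
        (pow_mem (hyy j) _)))) (hxs _)
    rintro t (⟨i, rfl⟩ | ⟨i, rfl⟩)
    · rcases cases3 i with rfl | rfl | ⟨j, rfl⟩
      exacts [hx0', hx1, hxs j]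
    · rcases cases3 i with rfl | rfl | ⟨j, rfl⟩
      · rw [h.y0]; exact zero_mem _
      · rw [h.y1]; exact one_mem _
      · rcases cases4 j with rfl | ⟨j, rfl⟩
        · exact hyl
        · exact hyy j
  have htb : IsTranscendenceBasis k v :=
    Algebra.IsAlgebraic.isTranscendenceBasis_of_le_trdeg_of_finite k v h.ind.cardinalMk_le_trdeg
  have h2 := (AlgebraicIndependent.sumElim_iff.1 htb.1).2
  rw [← IntermediateField.algebraicIndependent_adjoin_iff] at h2
  have h3 := h2.algebraicClosure
  have h4 := h3.comp Fin.succ (Fin.succ_injective _)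
  set K := IntermediateField.adjoin k (Set.range fun i : Fin (n + 1) => x i.succ.succ / x 0) with hK
  have hK' : ∀ a ∈ K, a ∈ algebraicClosure K E := fun a ha => by
    have : a = algebraMap K E ⟨a, ha⟩ := rfl
    rw [this]
    exact IntermediateField.algebraMap_mem _ _
  have h5 : ∀ a ∈ FZ k x, a ∈ algebraicClosure K E := by
    have : FZ k x ≤ (algebraicClosure K E).restrictScalars k := by
      unfold FZ
      rw [IntermediateField.adjoin_le_iff]
      rintro t ⟨i, rfl⟩
      show x i / x 0 ∈ algebraicClosure K E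
      rcases cases3 i with rfl | rfl | ⟨j, rfl⟩
      · rw [div_self hx0]; exact one_mem _
      · apply alg_root (2 * n + 5) (by omega)
        have h6 : (x 1 / x 0) ^ (2 * n + 5) =
            -(1 + ∑ i : Fin (n + 1), (x i.succ.succ / x 0) ^ (2 * n + 5)) := by
          have h7 : (x 0 ^ (2 * n + 5)) ≠ 0 := pow_ne_zero _ hx0
          simp only [div_pow]
          rw [← Finset.sum_div]
          field_simp
          linear_combination hf
        rw [h6]
        exact neg_mem (add_mem (one_mem _) (sum_mem fun j _ => pow_mem (hK' _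
          (IntermediateField.subset_adjoin _ _ ⟨j, rfl⟩)) _))
      · exact hK' _ (IntermediateField.subset_adjoin _ _ ⟨j, rfl⟩)
    exact fun a ha => this ha
  let φ : FZ k x →+* algebraicClosure K E :=
    { toFun := fun a => ⟨a.1, h5 a.1 a.2⟩
      map_one' := rfl
      map_mul' := fun _ _ => rfl
      map_zero' := rfl
      map_add' := fun _ _ => rfl }
  exact ai_of_ringHom φ (fun _ => rfl) h4

lemma adj_cst (δ : Derivation k E E) (F : IntermediateField k E) (hF : ∀ a ∈ F, δ a = 0)
    (S : Set E) (hS : ∀ a ∈ S, δ a = 0) {e : E} (he : e ∈ Algebra.adjoin F S) : δ e = 0 := by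
  induction he using Algebra.adjoin_induction with
  | mem x hx => exact hS x hx
  | algebraMap r => exact hF r.1 r.2
  | add x y _ _ hx hy => rw [map_add, hx, hy, add_zero]
  | mul x y _ _ hx hy => rw [δ.leibniz, hx, hy, smul_zero, smul_zero, add_zero]

end main

theorem main : S_FIB := by
  intro n k E _ _ _ _ _ _ x y hn h e he1 he2
  obtain ⟨m, rfl⟩ : ∃ m, n = m + 1 := ⟨n - 1, by omega⟩
  obtain ⟨δ, hδx, hδy, hδl⟩ := der h
  haveI : CharP E (m + 1 + 2) := charP_of_injective_algebraMap (algebraMap k E).injective _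
  have hF : ∀ a ∈ FZ k x, δ a = 0 := by
    have : FZ k x ≤ cst δ := by
      unfold FZ
      rw [IntermediateField.adjoin_le_iff]
      rintro t ⟨i, rfl⟩
      show x i / x 0 ∈ cst δ
      exact (cst δ).div_mem (hδx i) (hδx 0)
    exact fun a ha => this ha
  set u : Fin (m + 1) → E := yy y with hu
  have hui := indy h
  have hu0 : u 0 ≠ 0 := hui.ne_zero 0
  set Y := yl y with hY
  -- elements of `F`
  have hs : ∀ i j, x i / x j ∈ FZ k x := by
    intro i j
    have h1 : x i / x 0 ∈ FZ k x := IntermediateField.subset_adjoin _ _ ⟨i, rfl⟩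
    have h2 : x j / x 0 ∈ FZ k x := IntermediateField.subset_adjoin _ _ ⟨j, rfl⟩
    have h3 := div_mem h1 h2
    have h4 : x i / x 0 / (x j / x 0) = x i / x j := by
      have := h.dat.nx 0
      have := h.dat.nx j
      field_simp
    rwa [h4] at h3
  have hsc : ∀ (S : Set E) (i j : Fin (m + 1 + 3)), x i / x j ∈ Algebra.adjoin (FZ k x) S :=
    fun S i j => (Algebra.adjoin (FZ k x) S).algebraMap_mem ⟨_, hs i j⟩
  set l : Fin (m + 1 + 3) := (Fin.last (m + 1)).succ.succ with hl
  have hYp : Y ^ (m + 1 + 2) = -(x 1 / x l +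
      ∑ i : Fin (m + 1), x i.castSucc.succ.succ / x l * u i ^ (m + 1 + 2)) := by
    have h1 := x1' h
    have h2 := h.dat.nx l
    have h3 : ∑ i : Fin (m + 1), x i.castSucc.succ.succ / x l * u i ^ (m + 1 + 2) =
        (∑ i : Fin (m + 1), x i.castSucc.succ.succ * u i ^ (m + 1 + 2)) / x l := by
      rw [Finset.sum_div]
      exact Finset.sum_congr rfl fun i _ => by ring
    rw [h3]
    field_simp
    linear_combination h1
  -- the first representation
  have hR0 : Y ^ (m + 1 + 2) ∈ Algebra.adjoin (FZ k x) (Set.range u) := by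
    have hu' : ∀ i, u i ∈ Algebra.adjoin (FZ k x) (Set.range u) := fun i =>
      Algebra.subset_adjoin ⟨i, rfl⟩
    rw [hYp]
    exact neg_mem (add_mem (hsc _ _ _) (sum_mem fun i _ => mul_mem (hsc _ _ _)
      (pow_mem (hu' i) _)))
  have hr1 : Rp (Algebra.adjoin (FZ k x) (Set.range u)) Y (m + 1 + 2) e := by
    apply Rp_all (by omega) hR0
    refine Algebra.adjoin_le ?_ he1
    rintro t ⟨i, rfl⟩
    rcases cases3 i with rfl | rfl | ⟨j, rfl⟩
    · rw [h.y0]; exact zero_mem _
    · rw [h.y1]; exact one_mem _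
    · rcases cases4 j with rfl | ⟨j, rfl⟩
      · exact Algebra.subset_adjoin (Or.inr rfl)
      · exact Algebra.subset_adjoin (Or.inl (Algebra.subset_adjoin ⟨j, rfl⟩))
  -- the second representation
  set S1 : Set E := insert (u 0)⁻¹ (Set.range fun i => u i / u 0) with hS1
  have hR1 : (Y / u 0) ^ (m + 1 + 2) ∈ Algebra.adjoin (FZ k x) S1 := by
    have h1 : (Y / u 0) ^ (m + 1 + 2) = -(x 1 / x l * (u 0)⁻¹ ^ (m + 1 + 2) +
        ∑ i : Fin (m + 1), x i.castSucc.succ.succ / x l * (u i / u 0) ^ (m + 1 + 2)) := by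
      rw [div_pow, hYp]
      have h3 : ∑ i : Fin (m + 1), x i.castSucc.succ.succ / x l * (u i / u 0) ^ (m + 1 + 2) =
          (∑ i : Fin (m + 1), x i.castSucc.succ.succ / x l * u i ^ (m + 1 + 2)) /
            u 0 ^ (m + 1 + 2) := by
        rw [Finset.sum_div]
        exact Finset.sum_congr rfl fun i _ => by rw [div_pow]; ring
      rw [h3, inv_pow]
      ring
    have hu' : ∀ i, u i / u 0 ∈ Algebra.adjoin (FZ k x) S1 := fun i =>
      Algebra.subset_adjoin (Or.inr ⟨i, rfl⟩)
    have hu'' : (u 0)⁻¹ ∈ Algebra.adjoin (FZ k x) S1 := Algebra.subset_adjoin (Or.inl rfl)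
    rw [h1]
    exact neg_mem (add_mem (mul_mem (hsc _ _ _) (pow_mem hu'' _))
      (sum_mem fun i _ => mul_mem (hsc _ _ _) (pow_mem (hu' i) _)))
  have hr2 : Rp (Algebra.adjoin (FZ k x) S1) (Y / u 0) (m + 1 + 2) e := by
    apply Rp_all (by omega) hR1
    refine Algebra.adjoin_le ?_ he2
    rintro t ⟨i, rfl⟩
    have e2 : y 2 = u 0 := rfl
    show y i / y 2 ∈ _
    rw [e2]
    rcases cases3 i with rfl | rfl | ⟨j, rfl⟩
    · rw [h.y0, zero_div]; exact zero_mem _
    · rw [h.y1, one_div]
      exact Algebra.subset_adjoin (Or.inl (Algebra.subset_adjoin (Or.inl rfl)))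
    · rcases cases4 j with rfl | ⟨j, rfl⟩
      · exact Algebra.subset_adjoin (Or.inr rfl)
      · exact Algebra.subset_adjoin (Or.inl (Algebra.subset_adjoin (Or.inr ⟨j, rfl⟩)))
  obtain ⟨g, hg, hge⟩ := hr1
  obtain ⟨g', hg', hge'⟩ := hr2
  have hδu : ∀ a ∈ Set.range u, δ a = 0 := by
    rintro a ⟨i, rfl⟩
    exact hδy i
  have hδS : ∀ a ∈ S1, δ a = 0 := by
    rintro a (rfl | ⟨i, rfl⟩)
    · show (u 0)⁻¹ ∈ cst δ
      exact (cst δ).inv_mem (hδy 0)
    · show u i / u 0 ∈ cst δ
      exact (cst δ).div_mem (hδy i) (hδy 0)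
  have hdiff := indep δ hδl (m + 1 + 2) (m + 1 + 2) le_rfl (fun r => g r - g' r / u 0 ^ r)
    (fun r => by
      have h1 : δ (g r) = 0 := adj_cst δ _ hF _ hδu (hg r)
      have h2 : δ (g' r) = 0 := adj_cst δ _ hF _ hδS (hg' r)
      have h3 : δ (u 0) = 0 := hδy 0
      show g r - g' r / u 0 ^ r ∈ cst δ
      exact (cst δ).sub_mem h1 ((cst δ).div_mem h2 (pow_mem (show u 0 ∈ cst δ from h3) r)))
    (by
      have h1 : ∑ r ∈ Finset.range (m + 1 + 2), (g r - g' r / u 0 ^ r) * yl y ^ r =
          ∑ r ∈ Finset.range (m + 1 + 2), g r * Y ^ r -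
            ∑ r ∈ Finset.range (m + 1 + 2), g' r * (Y / u 0) ^ r := by
        rw [← Finset.sum_sub_distrib]
        exact Finset.sum_congr rfl fun r _ => by rw [div_pow]; ring
      rw [h1, ← hge, ← hge', sub_self])
  have hcoef : ∀ r < m + 1 + 2, (r = 0 ∨ g r = 0) ∧ ∃ c : FZ k x, g r = algebraMap (FZ k x) E c := by
    intro r hr
    have h1 := hdiff r hr
    have h2 : g r * u 0 ^ r = g' r := by
      have h3 : u 0 ^ r ≠ 0 := pow_ne_zero _ hu0
      rw [sub_eq_zero] at h1
      rw [h1, div_mul_cancel₀ _ h3]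
    exact coef u hui (hg r) (hg' r) h2
  have hfin : e = g 0 := by
    rw [hge, Finset.sum_eq_single 0]
    · rw [pow_zero, mul_one]
    · intro r hr hr0
      rcases (hcoef r (Finset.mem_range.1 hr)).1 with h1 | h1
      · exact absurd h1 hr0
      · rw [h1, zero_mul]
    · intro h1
      exact absurd (Finset.mem_range.2 (by omega)) h1
  obtain ⟨c, hc⟩ := (hcoef 0 (by omega)).2
  rw [hfin, hc]
  exact c.2

end Pool.Agent.W372.CB
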