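import Pool.Agent.W372.CB.LA1a

set_option autoImplicit false
set_option linter.unusedVariables false
set_option linter.unusedSectionVars false

open MeasureTheory Pool.Agent.W761.CB
open scoped ENNReal

namespace Pool.Agent.W372.CB

lemma exists_r0 {n : ℕ} {v : ℝ → ℝ≥0∞} (hv : Measurable v)
    (h : ∫⁻ z : Fin n → ℝ, v (el z) ≠ 0) :
    ∃ r0 : ℝ, 1 ≤ r0 ∧ ∃ w0 : ℝ, 0 < w0 ∧
      ∫⁻ z in cube n r0, min (v (el z)) 1 = ENNReal.ofReal w0 := by
  have hm : Measurable fun z : Fin n → ℝ => min (v (el z)) 1 :=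
    (hv.comp meas_el).min measurable_const
  obtain ⟨N, hN⟩ : ∃ N : ℕ, ∫⁻ z in cube n ((N : ℝ) + 1), min (v (el z)) 1 ≠ 0 := by
    by_contra hcon
    push Not at hcon
    apply h
    have h1 : ∫⁻ z : Fin n → ℝ, min (v (el z)) 1 = 0 := by
      have h2 : (⋃ N : ℕ, cube n ((N : ℝ) + 1)) = Set.univ := by
        rw [Set.eq_univ_iff_forall]
        intro z
        obtain ⟨N, hN⟩ := exists_nat_ge (∑ c, |z c|)
        rw [Set.mem_iUnion]
        refine ⟨N, fun c => ?_⟩
        have h3 : |z c| ≤ ∑ c, |z c| := Finset.single_le_sum (f := fun c => |z c|)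
          (fun c _ => abs_nonneg _) (Finset.mem_univ c)
        linarith
      rw [← setLIntegral_univ, ← h2]
      refine le_antisymm ?_ bot_le
      refine (lintegral_iUnion_le _ _).trans ?_
      rw [ENNReal.tsum_eq_zero.2 hcon]
    rw [lintegral_eq_zero_iff hm] at h1
    have hm' : Measurable fun z : Fin n → ℝ => v (el z) := hv.comp meas_el
    rw [lintegral_eq_zero_iff hm']
    filter_upwards [h1] with z hz
    simp only [Pi.zero_apply] at hz ⊢
    rcases min_choice (v (el z)) 1 with h3 | h3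
    · rw [h3] at hz; exact hz
    · rw [h3] at hz; exact absurd hz one_ne_zero
  refine ⟨N + 1, by have := Nat.cast_nonneg (α := ℝ) N; linarith, _, ?_,
    (ENNReal.ofReal_toReal ?_).symm⟩
  · refine ENNReal.toReal_pos hN ?_
    refine ne_top_of_le_ne_top ?_ (lintegral_mono fun z => min_le_right _ _)
    rw [lintegral_const, one_mul, Measure.restrict_apply_univ, vol_cube n (by positivity)]
    exact ENNReal.ofReal_ne_top
  · refine ne_top_of_le_ne_top ?_ (lintegral_mono fun z => min_le_right _ _)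
    rw [lintegral_const, one_mul, Measure.restrict_apply_univ, vol_cube n (by positivity)]
    exact ENNReal.ofReal_ne_top

section chain

variable {n : ℕ} {L : ℝ} [Fact (0 < L)] {b : ℝ} {q : ℕ} {m C : ℝ} {μ : ℝ≥0∞}
  {K : (Fin n → ℝ) → ℝ≥0∞} {f : Tor n L → ℂ} (O : Finset (Fin n → Fin q))
  (y : (Fin n → Fin q) → Tor n L)

/-- total mass in the cubes -/
noncomputable def TT (f : Tor n L → ℂ) (r : ℝ) : ℝ≥0∞ :=
  ∑ i ∈ O, ∫⁻ z in cube n r, ‖f (y i + pr L z)‖ₑ ^ 2

lemma meas_g (hTF : S_TF) (hf : Measurable f) (x : Tor n L) :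
    Measurable fun z : Fin n → ℝ => f (x + pr L z) :=
  hf.comp ((hTF n L).2.1.const_add x)

/-- one step -/
lemma stp (hTF : S_TF) (hBLK : S_BLK) (hq : 1 ≤ q) (hL : L = q * b)
    (hPO : PO n L m C μ K) (hf : Measurable f) (hfb : ∃ B : ℝ, ∀ x, ‖f x‖ ≤ B)
    (hy : ∀ i ∈ O, y i ∈ blk n L b (fun c => (i c : ℕ))) {r r' : ℝ} (hr0 : 0 ≤ r) (hr0' : 0 ≤ r')
    (hr : r < L / 2) (hr2 : r ≤ 2 * b) (h1 : 1 ≤ r + r') (hL' : r + r' ≤ L)
    {w : (Fin n → ℝ) → ℝ≥0∞} (hw : Measurable w) (hw1 : ∀ z, w z ≤ 1) {ε : ℝ} (hε : 0 < ε) :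
    (∫⁻ z in cube n r, w z) * TT O y f r' ≤
      ENNReal.ofReal (1 + ε) * (ENNReal.ofReal ((2 * r') ^ n) *
        ∑ i ∈ O, ∫⁻ z in cube n r, w z * ‖f (y i + pr L z)‖ₑ ^ 2) +
      ENNReal.ofReal (1 + ε⁻¹) * (ENNReal.ofReal (6 ^ n) *
        (ENNReal.ofReal (C * (r + r') ^ (n + m)) * ken1 μ K f)) := by
  have h2 := dbl hTF hBLK hq hL (r' := r') hr hr2 O y hy hf
  have h3 := hPO f hf hfb (r + r') h1 hL'
  unfold TT
  rw [Finset.mul_sum]
  have h4 : ∀ i ∈ O, (∫⁻ z in cube n r, w z) * ∫⁻ z in cube n r', ‖f (y i + pr L z)‖ₑ ^ 2 ≤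
      ENNReal.ofReal (1 + ε) * (ENNReal.ofReal ((2 * r') ^ n) *
        ∫⁻ z in cube n r, w z * ‖f (y i + pr L z)‖ₑ ^ 2) +
      ENNReal.ofReal (1 + ε⁻¹) * ∫⁻ z' in cube n r', ∫⁻ z in cube n r,
        ‖f (y i + pr L z) - f (y i + pr L z')‖ₑ ^ 2 := by
    intro i hi
    have := wst (meas_g hTF hf (y i)) hw hw1 (cube n r) (cube n r') hε
    rwa [vol_cube n hr0'] at this
  refine (Finset.sum_le_sum h4).trans ?_
  rw [Finset.sum_add_distrib, ← Finset.mul_sum, ← Finset.mul_sum, ← Finset.mul_sum]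
  exact add_le_add le_rfl (mul_le_mul_right (h2.trans (mul_le_mul_right h3 _)) _)

/-- the potential controls the mass near the points -/
lemma pot (hTF : S_TF) (hf : Measurable f) {v : ℝ → ℝ≥0∞} (hv : Measurable v) {r0 : ℝ}
    (hr : r0 < L / 2) (x : Tor n L) :
    ∫⁻ z in cube n r0, min (v (el z)) 1 * ‖f (x + pr L z)‖ₑ ^ 2 ≤
      ∫⁻ x', v (tdist x' x) * ‖f x'‖ₑ ^ 2 := by
  obtain ⟨-, hpr, -, -, -, hnorm, -, hvd⟩ := hTF n L
  have hm : Measurable fun x' : Tor n L => v (tdist x' x) * ‖f x'‖ₑ ^ 2 :=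
    ((hvd v hv).1.comp (measurable_id.prodMk measurable_const)).mul (hf.enorm.pow_const 2)
  calc ∫⁻ z in cube n r0, min (v (el z)) 1 * ‖f (x + pr L z)‖ₑ ^ 2
      ≤ ∫⁻ z in cube n r0, (fun x' => v (tdist x' x) * ‖f x'‖ₑ ^ 2) (x + pr L z) := by
        refine setLIntegral_mono' (meas_cube n r0) fun z hz => ?_
        have h1 : tdist (x + pr L z) x = el z := by
          unfold tdist el
          congr 1
          refine Finset.sum_congr rfl fun c _ => ?_
          have h2 : (x + pr L z) c - x c = pr L z c := by rw [Pi.add_apply]; abel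
          rw [h2, hnorm z (fun c => (hz c).trans hr.le) c, sq_abs]
        simp only [h1]
        exact mul_le_mul_left (min_le_left _ _) _
    _ = ∫⁻ x' in tc x r0, (fun x' => v (tdist x' x) * ‖f x'‖ₑ ^ 2) x' := tr hTF hr hm x
    _ ≤ _ := setLIntegral_le_lintegral _ _

lemma om {a b : ℝ} (ha : 0 ≤ a) (W : ℝ≥0∞) :
    ENNReal.ofReal a * (ENNReal.ofReal b * W) = ENNReal.ofReal (a * b) * W := by
  rw [ENNReal.ofReal_mul ha, mul_assoc]

end chain

theorem main (hTF : S_TF) (hBLK : S_BLK) : S_LA1 := by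
  intro n m C v hn hm hmn hC hv hv0
  obtain ⟨r0, hr0, w0, hw0, hw⟩ := exists_r0 hv hv0
  have hr0' : 0 < r0 := by linarith
  set δ : ℝ := ((n : ℝ) - m) / 2 with hδ
  have hδ0 : 0 < δ := by rw [hδ]; linarith
  set θ : ℝ := (2 : ℝ) ^ (-δ) with hθ
  have hθ0 : 0 < θ := by positivity
  have hθ1 : θ < 1 := by
    rw [hθ]
    exact Real.rpow_lt_one_of_one_lt_of_neg (by norm_num) (by linarith)
  set C' : ℝ := (3 : ℝ) ^ m * 18 ^ n * C with hC'
  have hC'0 : 0 ≤ C' := by positivity
  set B0 : ℝ := w0⁻¹ * (2 + 2 * (6 ^ n * (C * (2 * r0) ^ m))) with hB0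
  have hB00 : 0 ≤ B0 := by positivity
  set P : ℕ → ℝ := fun j => ∏ i ∈ Finset.range j, (1 + θ ^ i) with hP
  have hP1 : ∀ j, 1 ≤ P j := by
    intro j
    induction j with
    | zero => simp [hP]
    | succ j ih =>
      have h1 : P (j + 1) = P j * (1 + θ ^ j) := by simp only [hP, Finset.prod_range_succ]
      rw [h1]
      have h2 : 0 < θ ^ j := by positivity
      nlinarith
  have hPe : ∀ j, P j ≤ Real.exp ((1 - θ)⁻¹) := by
    intro j
    calc P j ≤ ∏ i ∈ Finset.range j, Real.exp (θ ^ i) := by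
          refine Finset.prod_le_prod (fun i _ => by positivity) fun i _ => ?_
          rw [add_comm]
          exact Real.add_one_le_exp _
      _ = Real.exp (∑ i ∈ Finset.range j, θ ^ i) := by rw [Real.exp_sum]
      _ ≤ Real.exp ((1 - θ)⁻¹) := by
          apply Real.exp_le_exp.2
          rw [← tsum_geometric_of_lt_one hθ0.le hθ1]
          exact (summable_geometric_of_lt_one hθ0.le hθ1).sum_le_tsum _
            (fun i _ => by positivity)
  set B : ℕ → ℝ := fun j => P j * (B0 + 2 * C') - 2 * C' with hB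
  have hBj : ∀ j, 0 ≤ B j := by
    intro j
    have := hP1 j
    simp only [hB]
    nlinarith
  have hBs : ∀ j, B (j + 1) = (1 + θ ^ j) * B j + 2 * C' * θ ^ j := by
    intro j
    have h1 : P (j + 1) = P j * (1 + θ ^ j) := by simp only [hP, Finset.prod_range_succ]
    simp only [hB]
    rw [h1]; ring
  refine ⟨4 ^ n * (Real.exp ((1 - θ)⁻¹) * (B0 + 2 * C')), r0, by positivity, hr0, ?_⟩
  intro L b _ q μ K hb hL hq hK hPO f hf hfb O y hy
  have hb0 : 0 < b := by linarith
  have hq' : (8 : ℝ) ≤ q := by exact_mod_cast hq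
  have hLb : 8 * b ≤ L := by rw [hL]; nlinarith
  set W : ℝ≥0∞ := ken1 μ K f + ∑ i ∈ O, ∫⁻ x, v (tdist x (y i)) * ‖f x‖ₑ ^ 2 with hW
  have hkW : ken1 μ K f ≤ W := le_self_add
  -- the chain of scales
  have key : ∀ j : ℕ, (∀ i < j, 2 ^ i * r0 ≤ b) →
      TT O y f (2 ^ j * r0) ≤
        ENNReal.ofReal (B j) * (ENNReal.ofReal ((2 * (2 ^ j * r0)) ^ n) * W) := by
    intro j
    induction j with
    | zero =>
      intro _
      rw [pow_zero, one_mul]
      have hmin : Measurable fun z : Fin n → ℝ => min (v (el z)) 1 :=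
        (hv.comp meas_el).min measurable_const
      have h1 := stp O y hTF hBLK (by omega) hL hPO hf hfb hy (r := r0) (r' := r0) hr0'.le hr0'.le
        (by linarith) (by linarith) (by linarith) (by linarith) hmin
        (fun z => min_le_right _ _) one_pos
      rw [hw] at h1
      have h2 : ∑ i ∈ O, ∫⁻ z in cube n r0, min (v (el z)) 1 * ‖f (y i + pr L z)‖ₑ ^ 2 ≤ W := by
        refine le_trans (Finset.sum_le_sum fun i _ => pot hTF hf hv (by linarith) (y i)) ?_
        exact le_add_self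
      have h3 : ENNReal.ofReal w0 * TT O y f r0 ≤
          ENNReal.ofReal (1 + 1) * (ENNReal.ofReal ((2 * r0) ^ n) * W) +
          ENNReal.ofReal (1 + 1⁻¹) * (ENNReal.ofReal (6 ^ n) *
            (ENNReal.ofReal (C * (r0 + r0) ^ (n + m)) * W)) :=
        h1.trans (add_le_add (mul_le_mul_right (mul_le_mul_right h2 _) _)
          (mul_le_mul_right (mul_le_mul_right (mul_le_mul_right hkW _) _) _))
      have hPos : (0 : ℝ) ≤ (r0 + r0) ^ ((n : ℝ) + m) := by positivity
      rw [om (by norm_num), om (by positivity), om (by norm_num), ← add_mul,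
        ← ENNReal.ofReal_add (by positivity) (by positivity)] at h3
      have h4 : ENNReal.ofReal w0 * TT O y f r0 ≤ ENNReal.ofReal w0 *
          (ENNReal.ofReal (B 0) * (ENNReal.ofReal ((2 * r0) ^ n) * W)) := by
        refine h3.trans ?_
        rw [om (hBj 0), om hw0.le]
        refine mul_le_mul_left (ENNReal.ofReal_le_ofReal ?_) _
        have h5 : B 0 = B0 := by simp only [hB, hP, Finset.prod_range_zero]; ring
        have h6 : (r0 + r0) ^ ((n : ℝ) + m) = (2 * r0) ^ n * (2 * r0) ^ m := by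
          rw [← two_mul, Real.rpow_add (by positivity), Real.rpow_natCast]
        rw [h5, hB0, h6]
        apply le_of_eq
        field_simp
        ring
      exact (ENNReal.mul_le_mul_iff_right (by simpa using hw0) ENNReal.ofReal_ne_top).1 h4
    | succ j ih =>
      intro hj
      have h0 := ih fun i hi => hj i (by omega)
      have hrb : 2 ^ j * r0 ≤ b := hj j (by omega)
      set r : ℝ := 2 ^ j * r0 with hr
      have hrr : 2 ^ (j + 1) * r0 = 2 * r := by rw [hr]; ring
      have h2j : (1 : ℝ) ≤ 2 ^ j := one_le_pow₀ (by norm_num)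
      have hr1 : 1 ≤ r := by rw [hr]; nlinarith
      have hrp : 0 < r := by linarith
      rw [hrr]
      have hε : 0 < θ ^ j := by positivity
      have h1 := stp O y hTF hBLK (by omega) hL hPO hf hfb hy (r := r) (r' := 2 * r) hrp.le
        (by positivity) (by linarith) (by linarith) (by linarith) (by linarith)
        (w := fun _ => 1) measurable_const (fun z => le_rfl) hε
      have h2 : ∑ i ∈ O, ∫⁻ z in cube n r, 1 * ‖f (y i + pr L z)‖ₑ ^ 2 = TT O y f r := by
        simp only [one_mul]; rfl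
      rw [h2, lintegral_const, one_mul, Measure.restrict_apply_univ, vol_cube n hrp.le] at h1
      have h3 : ENNReal.ofReal ((2 * r) ^ n) * TT O y f (2 * r) ≤
          ENNReal.ofReal (1 + θ ^ j) * (ENNReal.ofReal ((2 * (2 * r)) ^ n) *
            (ENNReal.ofReal (B j) * (ENNReal.ofReal ((2 * r) ^ n) * W))) +
          ENNReal.ofReal (1 + (θ ^ j)⁻¹) * (ENNReal.ofReal (6 ^ n) *
            (ENNReal.ofReal (C * (r + 2 * r) ^ (n + m)) * W)) :=
        h1.trans (add_le_add (mul_le_mul_right (mul_le_mul_right h0 _) _)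
          (mul_le_mul_right (mul_le_mul_right (mul_le_mul_right hkW _) _) _))
      have hPos : (0 : ℝ) ≤ (r + 2 * r) ^ ((n : ℝ) + m) := by positivity
      have hBjj := hBj j
      rw [om (hBj j), om (by positivity), om (by positivity), om (by positivity),
        om (by positivity), ← add_mul, ← ENNReal.ofReal_add (by positivity) (by positivity)] at h3
      have h4 : ENNReal.ofReal ((2 * r) ^ n) * TT O y f (2 * r) ≤ ENNReal.ofReal ((2 * r) ^ n) *
          (ENNReal.ofReal (B (j + 1)) * (ENNReal.ofReal ((2 * (2 * r)) ^ n) * W)) := by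
        refine h3.trans ?_
        rw [om (hBj (j + 1)), om (by positivity)]
        refine mul_le_mul_left (ENNReal.ofReal_le_ofReal ?_) _
        rw [hBs]
        -- the real inequality
        have h5 : (r + 2 * r) ^ ((n : ℝ) + m) = (3 : ℝ) ^ n * 3 ^ m * (r ^ n * r ^ m) := by
          have h6 : r + 2 * r = 3 * r := by ring
          rw [h6, Real.mul_rpow (by norm_num) hrp.le, Real.rpow_add (by norm_num),
            Real.rpow_add hrp, Real.rpow_natCast, Real.rpow_natCast]
        -- `ε ^ (-2) ≤ r ^ (n - m)`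
        have h7 : ((θ ^ j)⁻¹) ^ 2 * r ^ m ≤ r ^ n := by
          have h8 : ((θ ^ j)⁻¹) ^ 2 = ((2 : ℝ) ^ j) ^ ((n : ℝ) - m) := by
            rw [hθ, ← Real.rpow_natCast, ← Real.rpow_natCast 2 j, ← Real.rpow_natCast,
              ← Real.rpow_mul (by norm_num), ← Real.rpow_mul (by norm_num),
              ← Real.rpow_neg (by norm_num), ← Real.rpow_mul (by norm_num)]
            congr 1
            rw [hδ]
            push_cast
            ring
          have h9 : r ^ n = r ^ ((n : ℝ) - m) * r ^ m := by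
            rw [← Real.rpow_add hrp, sub_add_cancel, Real.rpow_natCast]
          rw [h8, h9]
          refine mul_le_mul_of_nonneg_right ?_ (by positivity)
          refine Real.rpow_le_rpow (by positivity) ?_ (by linarith)
          rw [hr]; nlinarith
        have h10 : 1 + (θ ^ j)⁻¹ ≤ 2 * (θ ^ j)⁻¹ := by
          have : 1 ≤ (θ ^ j)⁻¹ := by
            rw [one_le_inv₀ hε]
            exact pow_le_one₀ hθ0.le hθ1.le
          linarith
        rw [h5]
        have h11 : (1 + (θ ^ j)⁻¹) * (6 ^ n * (C * ((3 : ℝ) ^ n * 3 ^ m * (r ^ n * r ^ m)))) ≤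
            2 * C' * θ ^ j * ((2 * (2 * r)) ^ n * (2 * r) ^ n) := by
          calc (1 + (θ ^ j)⁻¹) * (6 ^ n * (C * ((3 : ℝ) ^ n * 3 ^ m * (r ^ n * r ^ m))))
              ≤ 2 * (θ ^ j)⁻¹ * (6 ^ n * (C * ((3 : ℝ) ^ n * 3 ^ m * (r ^ n * r ^ m)))) :=
                mul_le_mul_of_nonneg_right h10 (by positivity)
            _ = 2 * (3 ^ m * (6 ^ n * 3 ^ n) * C) * θ ^ j *
                (((θ ^ j)⁻¹) ^ 2 * r ^ m * r ^ n) := by
                field_simp
            _ ≤ 2 * (3 ^ m * (6 ^ n * 3 ^ n) * C) * θ ^ j * (r ^ n * r ^ n) := by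
                refine mul_le_mul_of_nonneg_left ?_ (by positivity)
                exact mul_le_mul_of_nonneg_right h7 (by positivity)
            _ = 2 * C' * θ ^ j * (r ^ n * r ^ n) := by
                rw [← mul_pow, hC']; norm_num
            _ ≤ 2 * C' * θ ^ j * ((2 * (2 * r)) ^ n * (2 * r) ^ n) := by
                refine mul_le_mul_of_nonneg_left ?_ (by positivity)
                refine mul_le_mul (pow_le_pow_left₀ hrp.le (by linarith) n)
                  (pow_le_pow_left₀ hrp.le (by linarith) n) (by positivity) (by positivity)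
        linarith
      refine (ENNReal.mul_le_mul_iff_right ?_ ENNReal.ofReal_ne_top).1 h4
      have : 0 < (2 * r) ^ n := by positivity
      simpa using this
  -- the last scale
  have hex : ∃ j : ℕ, b ≤ 2 ^ j * r0 := by
    obtain ⟨j, hj⟩ := pow_unbounded_of_one_lt b (by norm_num : (1 : ℝ) < 2)
    refine ⟨j, hj.le.trans ?_⟩
    have : (0 : ℝ) < 2 ^ j := by positivity
    nlinarith
  classical
  set J := Nat.find hex with hJ
  have hJ1 : b ≤ 2 ^ J * r0 := Nat.find_spec hex
  have hJ2 : ∀ i < J, 2 ^ i * r0 ≤ b := fun i hi => (not_le.1 (Nat.find_min hex hi)).le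
  have hJ3 : 2 ^ J * r0 ≤ 2 * b := by
    rcases Nat.eq_zero_or_pos J with h | h
    · rw [h]; linarith
    · obtain ⟨i, hi⟩ := Nat.exists_eq_succ_of_ne_zero h.ne'
      have := hJ2 i (by omega)
      rw [hi, Nat.succ_eq_add_one, pow_succ]
      linarith
  have h1 := key J hJ2
  have h2 : ∑ i ∈ O, ∫⁻ x in blk n L b (fun c => (i c : ℕ)), ‖f x‖ₑ ^ 2 ≤
      TT O y f (2 ^ J * r0) := by
    unfold TT
    refine Finset.sum_le_sum fun i hi => ?_
    rw [tr hTF (φ := fun x => ‖f x‖ₑ ^ 2) (by linarith) (hf.enorm.pow_const 2) (y i)]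
    refine lintegral_mono_set fun x hx => ?_
    obtain ⟨z, hz, hxz⟩ := (hBLK n L b q (by omega) hL).2.2.1 _ _ _ (hy i hi) hx
    intro c
    have h3 : x c - y i c = pr L z c := by rw [hxz, Pi.add_apply]; abel
    rw [h3, (hTF n L).2.2.2.2.2.1 z (fun c => by linarith [hz c]) c]
    linarith [hz c]
  refine h2.trans (h1.trans ?_)
  rw [om (hBj J)]
  refine mul_le_mul_left (ENNReal.ofReal_le_ofReal ?_) _
  have h3 : B J ≤ Real.exp ((1 - θ)⁻¹) * (B0 + 2 * C') := by
    simp only [hB]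
    have := mul_le_mul_of_nonneg_right (hPe J) (by positivity : 0 ≤ B0 + 2 * C')
    linarith
  have h4 : (2 * (2 ^ J * r0)) ^ n ≤ (4 * b) ^ n := by
    refine pow_le_pow_left₀ (by positivity) (by linarith) n
  calc B J * (2 * (2 ^ J * r0)) ^ n
      ≤ (Real.exp ((1 - θ)⁻¹) * (B0 + 2 * C')) * (4 * b) ^ n :=
        mul_le_mul h3 h4 (by positivity) (by positivity)
    _ = 4 ^ n * (Real.exp ((1 - θ)⁻¹) * (B0 + 2 * C')) * b ^ n := by rw [mul_pow]; ring

end Pool.Agent.W372.CB
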