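import Pool.Agent.W761.CB.Stms

set_option autoImplicit false
set_option linter.unusedVariables false
set_option linter.unusedSectionVars false

open MeasureTheory Pool.Agent.W761.CB
open scoped ENNReal

namespace Pool.Agent.W372.CB

section basic

variable {n : ℕ} {L : ℝ}

lemma cube_eq (n : ℕ) (r : ℝ) : cube n r = Set.Icc (fun _ => -r) (fun _ => r) := by
  ext z
  simp only [cube, Set.mem_ofPred_eq, Set.mem_Icc, Pi.le_def, abs_le]
  exact forall_and

lemma meas_cube (n : ℕ) (r : ℝ) : MeasurableSet (cube n r) := by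
  rw [cube_eq]; exact measurableSet_Icc

lemma vol_cube (n : ℕ) {r : ℝ} (hr : 0 ≤ r) : volume (cube n r) = ENNReal.ofReal ((2 * r) ^ n) := by
  rw [cube_eq, Real.volume_Icc_pi]
  simp only [sub_neg_eq_add, Finset.prod_const, Finset.card_univ, Fintype.card_fin]
  rw [ENNReal.ofReal_pow (by positivity), two_mul]

lemma cube_mono {r r' : ℝ} (h : r ≤ r') : cube n r ⊆ cube n r' := fun z hz c => (hz c).trans h

lemma meas_el : Measurable (fun z : Fin n → ℝ => el z) := by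
  unfold el
  fun_prop

/-- the cube with the centre `y` on the torus -/
def tc (y : Tor n L) (r : ℝ) : Set (Tor n L) := {x | ∀ c, ‖x c - y c‖ ≤ r}

variable [Fact (0 < L)]

lemma meas_tc (y : Tor n L) (r : ℝ) : MeasurableSet (tc y r) := by
  have : tc y r = ⋂ c, {x : Tor n L | ‖x c - y c‖ ≤ r} := by
    ext x; simp [tc]
  rw [this]
  refine MeasurableSet.iInter fun c => ?_
  exact measurableSet_le ((measurable_pi_apply c).sub_const _).norm measurable_const

/-- Integrals over cubes. -/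
lemma tr (hTF : S_TF) {r : ℝ} (hr : r < L / 2) {φ : Tor n L → ℝ≥0∞} (hφ : Measurable φ)
    (y : Tor n L) :
    ∫⁻ z in cube n r, φ (y + pr L z) = ∫⁻ x in tc y r, φ x := by
  obtain ⟨-, hpr, -, hbox, htr, hnorm, -, -⟩ := hTF n L
  rw [← lintegral_indicator (meas_tc y r)]
  have hm : Measurable ((tc y r).indicator φ) := hφ.indicator (meas_tc y r)
  rw [← htr _ hm y, hbox (fun x => (tc y r).indicator φ (x + y))
    (hm.comp (measurable_id.add_const y))]
  set Bx : Set (Fin n → ℝ) := {z : Fin n → ℝ | ∀ c, -(L / 2) < z c ∧ z c ≤ L / 2} with hBx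
  have hBm : MeasurableSet Bx := by
    have : Bx = ⋂ c, {z : Fin n → ℝ | -(L / 2) < z c ∧ z c ≤ L / 2} := by
      ext z; simp [hBx]
    rw [this]
    refine MeasurableSet.iInter fun c => ?_
    exact (measurableSet_lt measurable_const (measurable_pi_apply c)).inter
      (measurableSet_le (measurable_pi_apply c) measurable_const)
  rw [← lintegral_indicator (meas_cube n r), ← lintegral_indicator hBm]
  refine lintegral_congr fun z => ?_
  by_cases hz : z ∈ cube n r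
  · have hzB : z ∈ Bx := by
      intro c
      have := abs_le.1 (hz c)
      exact ⟨by linarith [this.1], by linarith [this.2]⟩
    have hzt : pr L z + y ∈ tc y r := by
      intro c
      have h1 : (pr L z + y) c - y c = pr L z c := by
        rw [Pi.add_apply]; abel
      rw [h1, hnorm z (fun c => (hz c).trans hr.le) c]
      exact hz c
    rw [Set.indicator_of_mem hz, Set.indicator_of_mem hzB, Set.indicator_of_mem hzt, add_comm]
  · rw [Set.indicator_of_notMem hz]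
    by_cases hzB : z ∈ Bx
    · rw [Set.indicator_of_mem hzB, Set.indicator_of_notMem]
      intro hzt
      apply hz
      intro c
      have h1 : (pr L z + y) c - y c = pr L z c := by
        rw [Pi.add_apply]; abel
      have h2 := hzt c
      rw [h1, hnorm z (fun c => abs_le.2 ⟨(hzB c).1.le, (hzB c).2⟩) c] at h2
      exact h2
    · rw [Set.indicator_of_notMem hzB]

/-- Every point is contained in few cubes. -/
lemma ovl (hTF : S_TF) (hBLK : S_BLK) {b : ℝ} {q : ℕ} (hq : 1 ≤ q) (hL : L = q * b) {r : ℝ}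
    (hr : r < L / 2) (hr2 : r ≤ 2 * b) (O : Finset (Fin n → Fin q))
    (y : (Fin n → Fin q) → Tor n L) (hy : ∀ i ∈ O, y i ∈ blk n L b (fun c => (i c : ℕ)))
    {φ : Tor n L → ℝ≥0∞} (hφ : Measurable φ) :
    ∑ i ∈ O, ∫⁻ z in cube n r, φ (y i + pr L z) ≤ ENNReal.ofReal (6 ^ n) * ∫⁻ x, φ x := by
  classical
  rw [Finset.sum_congr rfl fun i _ => tr hTF hr hφ (y i)]
  have h1 : ∀ i, ∫⁻ x in tc (y i) r, φ x = ∫⁻ x, (tc (y i) r).indicator φ x := fun i =>
    (lintegral_indicator (meas_tc _ _) _).symm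
  rw [Finset.sum_congr rfl fun i _ => h1 i,
    ← lintegral_finsetSum _ (fun i _ => hφ.indicator (meas_tc _ _)),
    ← lintegral_const_mul _ hφ]
  refine lintegral_mono fun x => ?_
  obtain ⟨-, -, -, -, -, -, hrep, -⟩ := hTF n L
  have h2 : ∑ i ∈ O, (tc (y i) r).indicator φ x =
      ((O.filter fun i => x ∈ tc (y i) r).card : ℝ≥0∞) * φ x := by
    rw [← nsmul_eq_mul, ← Finset.sum_const, Finset.sum_filter]
    exact Finset.sum_congr rfl fun i _ => rfl
  rw [h2]
  refine mul_le_mul_left ?_ _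
  have h3 := (hBLK n L b q hq hL).2.2.2.2 x 2
  have h4 : (O.filter fun i => x ∈ tc (y i) r).card ≤ (Finset.univ.filter fun i : Fin n → Fin q =>
      ∃ y ∈ blk n L b (fun c => (i c : ℕ)), ∃ z : Fin n → ℝ, (∀ c, |z c| ≤ (2 : ℕ) * b) ∧
        y = x + pr L z).card := by
    apply Finset.card_le_card
    intro i hi
    rw [Finset.mem_filter] at hi ⊢
    refine ⟨Finset.mem_univ _, y i, hy i hi.1, ?_⟩
    obtain ⟨z, hz1, hz2⟩ := hrep (y i - x)
    refine ⟨z, fun c => ?_, by rw [← hz2]; abel⟩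
    rw [(hz1 c).1, Pi.sub_apply, ← neg_sub, norm_neg]
    refine (hi.2 c).trans (hr2.trans ?_)
    push_cast; exact le_rfl
  have h5 : ((O.filter fun i => x ∈ tc (y i) r).card : ℝ) ≤ 6 ^ n := by
    refine (Nat.cast_le.2 h4).trans (h3.trans ?_)
    norm_num
  rw [← ENNReal.ofReal_natCast]
  exact ENNReal.ofReal_le_ofReal h5

/-- Double integrals over cubes. -/
lemma dbl (hTF : S_TF) (hBLK : S_BLK) {b : ℝ} {q : ℕ} (hq : 1 ≤ q) (hL : L = q * b) {r r' : ℝ}
    (hr : r < L / 2) (hr2 : r ≤ 2 * b) (O : Finset (Fin n → Fin q))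
    (y : (Fin n → Fin q) → Tor n L) (hy : ∀ i ∈ O, y i ∈ blk n L b (fun c => (i c : ℕ)))
    {f : Tor n L → ℂ} (hf : Measurable f) :
    ∑ i ∈ O, ∫⁻ z' in cube n r', ∫⁻ z in cube n r,
        ‖f (y i + pr L z) - f (y i + pr L z')‖ₑ ^ 2 ≤
      ENNReal.ofReal (6 ^ n) * ∫⁻ h in cube n (r + r'), d1 f (pr L h) := by
  obtain ⟨-, hpr, hadd, -, -, -, -, -⟩ := hTF n L
  have hG : ∀ i, Measurable fun p : (Fin n → ℝ) × (Fin n → ℝ) =>
      ‖f (y i + pr L p.1) - f (y i + pr L p.2)‖ₑ ^ 2 := by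
    intro i
    exact (((hf.comp ((hpr.comp measurable_fst).const_add _)).sub
      (hf.comp ((hpr.comp measurable_snd).const_add _))).enorm).pow_const 2
  have hH : ∀ i, Measurable fun p : (Fin n → ℝ) × (Fin n → ℝ) =>
      ‖f (y i + pr L p.1 + pr L p.2) - f (y i + pr L p.1)‖ₑ ^ 2 := by
    intro i
    exact (((hf.comp (((hpr.comp measurable_fst).const_add _).add (hpr.comp measurable_snd))).sub
      (hf.comp ((hpr.comp measurable_fst).const_add _))).enorm).pow_const 2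
  have h1 : ∀ i, ∫⁻ z' in cube n r', ∫⁻ z in cube n r,
      ‖f (y i + pr L z) - f (y i + pr L z')‖ₑ ^ 2 ≤
      ∫⁻ h in cube n (r + r'), ∫⁻ z in cube n r,
        ‖f (y i + pr L z + pr L h) - f (y i + pr L z)‖ₑ ^ 2 := by
    intro i
    rw [lintegral_lintegral_swap
      (f := fun z' z => ‖f (y i + pr L z) - f (y i + pr L z')‖ₑ ^ 2)
      ((hG i).comp measurable_swap).aemeasurable]
    rw [lintegral_lintegral_swap
      (f := fun h z => ‖f (y i + pr L z + pr L h) - f (y i + pr L z)‖ₑ ^ 2)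
      ((hH i).comp measurable_swap).aemeasurable]
    refine setLIntegral_mono' (meas_cube n r) fun z hz => ?_
    rw [← lintegral_indicator (meas_cube n r'), ← lintegral_indicator (meas_cube n (r + r')),
      ← lintegral_add_left_eq_self _ z]
    refine lintegral_mono fun h => ?_
    by_cases hh : z + h ∈ cube n r'
    · have hh' : h ∈ cube n (r + r') := by
        intro c
        have h2 := hh c
        have h3 := hz c
        rw [Pi.add_apply] at h2
        rw [abs_le] at h2 h3 ⊢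
        constructor <;> linarith [h2.1, h2.2, h3.1, h3.2]
      rw [Set.indicator_of_mem hh, Set.indicator_of_mem hh', hadd, ← add_assoc]
      apply le_of_eq
      congr 1
      rw [← enorm_neg, neg_sub]
    · rw [Set.indicator_of_notMem hh]
      exact bot_le
  refine (Finset.sum_le_sum fun i _ => h1 i).trans ?_
  rw [← lintegral_finsetSum _ (fun i _ => ?_), ← lintegral_const_mul']
  · refine lintegral_mono fun h => ?_
    have h2 : Measurable fun x : Tor n L => ‖f (x + pr L h) - f x‖ₑ ^ 2 :=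
      (((hf.comp (measurable_id.add_const _)).sub hf).enorm).pow_const 2
    exact ovl hTF hBLK hq hL hr hr2 O y hy h2
  · exact ENNReal.ofReal_ne_top
  · exact ((hH i).comp measurable_swap).lintegral_prod_right'

end basic

section mink

variable {n : ℕ}

lemma pw (a b : ℂ) {ε : ℝ} (hε : 0 < ε) :
    ‖a‖ₑ ^ 2 ≤ ENNReal.ofReal (1 + ε) * ‖b‖ₑ ^ 2 + ENNReal.ofReal (1 + ε⁻¹) * ‖b - a‖ₑ ^ 2 := by
  have h1 : ∀ x : ℂ, ‖x‖ₑ ^ 2 = ENNReal.ofReal (‖x‖ ^ 2) := by
    intro x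
    rw [ENNReal.ofReal_pow (norm_nonneg x), ofReal_norm]
  rw [h1, h1, h1, ← ENNReal.ofReal_mul (by positivity), ← ENNReal.ofReal_mul (by positivity),
    ← ENNReal.ofReal_add (by positivity) (by positivity)]
  apply ENNReal.ofReal_le_ofReal
  have h2 : ‖a‖ ≤ ‖b‖ + ‖b - a‖ := by
    have := norm_sub_norm_le b (b - a)
    have h3 : ‖a‖ = ‖b - (b - a)‖ := by congr 1; ring
    rw [h3]
    exact norm_sub_le b (b - a)
  have h3 : ‖a‖ ^ 2 ≤ (‖b‖ + ‖b - a‖) ^ 2 := pow_le_pow_left₀ (norm_nonneg a) h2 2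
  refine h3.trans ?_
  have h4 : 0 ≤ (ε * ‖b‖ - ‖b - a‖) ^ 2 := sq_nonneg _
  have h5 : (1 + ε) * ‖b‖ ^ 2 + (1 + ε⁻¹) * ‖b - a‖ ^ 2 - (‖b‖ + ‖b - a‖) ^ 2 =
      ε⁻¹ * (ε * ‖b‖ - ‖b - a‖) ^ 2 := by
    field_simp
    ring
  have h6 : 0 ≤ ε⁻¹ * (ε * ‖b‖ - ‖b - a‖) ^ 2 := by positivity
  linarith

lemma wst {g : (Fin n → ℝ) → ℂ} (hg : Measurable g) {w : (Fin n → ℝ) → ℝ≥0∞}
    (hw : Measurable w) (hw1 : ∀ z, w z ≤ 1) (A A' : Set (Fin n → ℝ)) {ε : ℝ} (hε : 0 < ε) :
    (∫⁻ z in A, w z) * ∫⁻ z' in A', ‖g z'‖ₑ ^ 2 ≤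
      ENNReal.ofReal (1 + ε) * (volume A' * ∫⁻ z in A, w z * ‖g z‖ₑ ^ 2) +
        ENNReal.ofReal (1 + ε⁻¹) * ∫⁻ z' in A', ∫⁻ z in A, ‖g z - g z'‖ₑ ^ 2 := by
  have hgm : Measurable fun z => ‖g z‖ₑ ^ 2 := hg.enorm.pow_const 2
  have hG : Measurable fun p : (Fin n → ℝ) × (Fin n → ℝ) => ‖g p.2 - g p.1‖ₑ ^ 2 :=
    ((hg.comp measurable_snd).sub (hg.comp measurable_fst)).enorm.pow_const 2
  have h1 : (∫⁻ z in A, w z) * ∫⁻ z' in A', ‖g z'‖ₑ ^ 2 =
      ∫⁻ z' in A', ∫⁻ z in A, w z * ‖g z'‖ₑ ^ 2 := by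
    rw [← lintegral_const_mul _ hgm]
    refine lintegral_congr fun z' => ?_
    rw [lintegral_mul_const _ hw]
  have h2 : ∀ z', ∫⁻ z in A, w z * ‖g z'‖ₑ ^ 2 ≤
      ENNReal.ofReal (1 + ε) * (∫⁻ z in A, w z * ‖g z‖ₑ ^ 2) +
        ENNReal.ofReal (1 + ε⁻¹) * ∫⁻ z in A, ‖g z - g z'‖ₑ ^ 2 := by
    intro z'
    have hm1 : Measurable fun z => ‖g z - g z'‖ₑ ^ 2 := (hg.sub_const _).enorm.pow_const 2
    have hm2 : Measurable fun z => w z * ‖g z‖ₑ ^ 2 := hw.mul hgm
    rw [← lintegral_const_mul _ hm2, ← lintegral_const_mul _ hm1,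
      ← lintegral_add_left (hm2.const_mul _)]
    refine lintegral_mono fun z => ?_
    calc w z * ‖g z'‖ₑ ^ 2 ≤ w z * (ENNReal.ofReal (1 + ε) * ‖g z‖ₑ ^ 2 +
          ENNReal.ofReal (1 + ε⁻¹) * ‖g z - g z'‖ₑ ^ 2) := mul_le_mul_right (pw _ _ hε) _
      _ = ENNReal.ofReal (1 + ε) * (w z * ‖g z‖ₑ ^ 2) +
          w z * (ENNReal.ofReal (1 + ε⁻¹) * ‖g z - g z'‖ₑ ^ 2) := by ring
      _ ≤ ENNReal.ofReal (1 + ε) * (w z * ‖g z‖ₑ ^ 2) +
          1 * (ENNReal.ofReal (1 + ε⁻¹) * ‖g z - g z'‖ₑ ^ 2) :=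
        add_le_add le_rfl (mul_le_mul_left (hw1 z) _)
      _ = _ := by rw [one_mul]
  rw [h1]
  refine (lintegral_mono h2).trans ?_
  rw [lintegral_add_left measurable_const, lintegral_const_mul _ hG.lintegral_prod_right',
    lintegral_const, Measure.restrict_apply_univ]
  apply le_of_eq
  ring

end mink

end Pool.Agent.W372.CB
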